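import Pool.Agent.LCK.Stmts

/-!
# LCK, row UPS
-/

set_option autoImplicit false

open Topology

namespace Pool.Agent.LCK.H15

theorem av_cast {n : ℕ} (c : Fin (n + 1) → E3) (x : E3) (i : Fin (n + 1)) :
    av c x i.castSucc = c i := by
  unfold av
  exact Fin.snoc_castSucc (α := fun _ => E3) x c i

theorem av_last {n : ℕ} (c : Fin (n + 1) → E3) (x : E3) : av c x (Fin.last (n + 1)) = x := by
  unfold av
  exact Fin.snoc_last (α := fun _ => E3) x c

theorem dist_scale (a b : E3) {r s : ℝ} (hr : 0 ≤ r) (h : dist a b = s) :
    dist a (a + r • (b - a)) = r * s := by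
  rw [dist_eq_norm] at h ⊢
  rw [sub_add_cancel_left, norm_neg, norm_smul, Real.norm_of_nonneg hr, ← h, norm_sub_rev]

/-- the map changing the length of the last link by the factor `r` -/
noncomputable def sc {n : ℕ} (r : ℝ) (v : Fin (n + 2) → E3) : Fin (n + 2) → E3 :=
  av (fun i : Fin (n + 1) => v i.castSucc)
    (v (Fin.last n).castSucc + r • (v (Fin.last (n + 1)) - v (Fin.last n).castSucc))

theorem sc_av {n : ℕ} (r : ℝ) (c : Fin (n + 1) → E3) (x : E3) :
    sc r (av c x) = av c (c (Fin.last n) + r • (x - c (Fin.last n))) := by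
  unfold sc
  rw [av_cast, av_last]
  congr 1
  funext i
  exact av_cast c x i

theorem sc_cont {n : ℕ} (hS : SNCStmt) (r : ℝ) :
    Continuous (sc r : (Fin (n + 2) → E3) → (Fin (n + 2) → E3)) := by
  have h := (hS n).2.2.1
  have h2 : Continuous fun v : Fin (n + 2) → E3 =>
      ((fun i : Fin (n + 1) => v i.castSucc,
        v (Fin.last n).castSucc + r • (v (Fin.last (n + 1)) - v (Fin.last n).castSucc)) :
        (Fin (n + 1) → E3) × E3) := by
    refine Continuous.prodMk ?_ ?_
    · exact continuous_pi fun i => continuous_apply _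
    · have e1 : Continuous fun v : Fin (n + 2) → E3 => v (Fin.last n).castSucc :=
        continuous_apply _
      have e2 : Continuous fun v : Fin (n + 2) → E3 => v (Fin.last (n + 1)) := continuous_apply _
      have e3 : Continuous fun v : Fin (n + 2) → E3 =>
          v (Fin.last (n + 1)) - v (Fin.last n).castSucc := Continuous.sub e2 e1
      have e4 : Continuous fun v : Fin (n + 2) → E3 =>
          r • (v (Fin.last (n + 1)) - v (Fin.last n).castSucc) := Continuous.const_smul e3 r
      exact Continuous.add e1 e4
  exact h.comp h2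

theorem ups (hS : SNCStmt) (hD : DENStmt) : UPSStmt := by
  intro n l hl
  obtain ⟨s1, s2, s3, s4⟩ := hS n
  refine ⟨?_, ?_⟩
  · intro ε L hε hεL hpre
    have hL : 0 < L := hε.trans_le hεL
    refine (hpre.image (sc (ε / L)) (sc_cont hS _).continuousOn).subset_closure ?_ ?_
    · rintro _ ⟨v, hv, rfl⟩
      rw [← s2 v] at hv ⊢
      set c : Fin (n + 1) → E3 := fun i => v i.castSucc with hc
      set x : E3 := v (Fin.last (n + 1)) with hx
      obtain ⟨h1, h2, h3⟩ := (s1 l L c x).mp hv
      rw [sc_av]
      refine (s1 l ε c _).mpr ⟨h1, ?_, ?_⟩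
      · rw [dist_scale _ _ (by positivity) h2]
        field_simp
      · apply s4 c (x - c (Fin.last n)) (ε / L) (by positivity)
        · rw [div_le_one hL]
          exact hεL
        · rwa [add_sub_cancel]
    · intro v hv
      rw [← s2 v] at hv ⊢
      set c : Fin (n + 1) → E3 := fun i => v i.castSucc with hc
      set x : E3 := v (Fin.last (n + 1)) with hx
      obtain ⟨h1, h2, h3⟩ := (s1 l ε c x).mp hv
      have hne : x ≠ c (Fin.last n) := by
        intro h
        rw [h, dist_self] at h2
        exact hε.ne h2
      rw [mem_closure_iff_nhds]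
      intro V hV
      have hcont : Continuous fun y : E3 => av c y :=
        s3.comp (Continuous.prodMk continuous_const continuous_id)
      have hV' : (fun y : E3 => av c y) ⁻¹' V ∈ 𝓝 x := hcont.continuousAt hV
      obtain ⟨δ, hδ, hball⟩ := Metric.mem_nhds_iff.mp hV'
      obtain ⟨y, hy1, hy2, hy3⟩ := hD n l hl c h1 x δ hne hδ
      refine ⟨av c y, hball ?_, av c (c (Fin.last n) + (L / ε) • (y - c (Fin.last n))), ?_, ?_⟩
      · rw [Metric.mem_ball, dist_eq_norm]
        exact hy1
      · refine (s1 l L c _).mpr ⟨h1, ?_, hy3 _ (by positivity)⟩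
        rw [dist_scale _ _ (by positivity) (hy2.trans h2)]
        field_simp
      · rw [sc_av]
        congr 1
        rw [add_sub_cancel_left, smul_smul]
        have : ε / L * (L / ε) = 1 := by field_simp
        rw [this, one_smul, add_sub_cancel]
  · intro L hL hpre
    have himg : (fun (v : Fin (n + 2) → E3) (i : Fin (n + 1)) => v i.castSucc) '' Conf (ap l L) =
        Conf l := by
      ext c
      constructor
      · rintro ⟨v, hv, rfl⟩
        rw [← s2 v] at hv
        exact ((s1 l L _ _).mp hv).1
      · intro hc
        set e : E3 := EuclideanSpace.single (0 : Fin 3) (1 : ℝ) with he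
        have hne1 : ‖e‖ = 1 := by
          rw [he, EuclideanSpace.norm_single]
          simp
        have hne0 : e ≠ 0 := by
          intro h
          rw [h, norm_zero] at hne1
          exact zero_ne_one hne1
        have hx : c (Fin.last n) + e ≠ c (Fin.last n) := by
          intro h
          exact hne0 (by simpa using h)
        obtain ⟨y, -, hy2, hy3⟩ := hD n l hl c hc (c (Fin.last n) + e) 1 hx one_pos
        have hd : dist (c (Fin.last n)) (c (Fin.last n) + e) = 1 := by
          rw [dist_eq_norm, sub_add_cancel_left, norm_neg, hne1]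
        refine ⟨av c (c (Fin.last n) + L • (y - c (Fin.last n))), ?_, ?_⟩
        · refine (s1 l L c _).mpr ⟨hc, ?_, hy3 _ hL⟩
          rw [dist_scale _ _ hL.le (hy2.trans hd), mul_one]
        · funext i
          exact av_cast c _ i
    rw [← himg]
    exact hpre.image _ (continuous_pi fun i => continuous_apply _).continuousOn

end Pool.Agent.LCK.H15
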